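import Pool.Agent.L5helper16.LG.Defs4

/-!
# Project LG, job C3: Chebyshev's inequality for the number of the survivors
-/

set_option autoImplicit false

namespace Pool.Agent.L5helper82.LG

open Finset Filter Topology
open Pool.Agent.L5helper16.LG

theorem exists_res (P p j : ℕ) (hp : p.Prime) (hP : ¬ p ∣ P) : ∃ r : ℕ, p ∣ r * P + j := by
  have := Fact.mk hp
  have hP0 : (P : ZMod p) ≠ 0 := by rwa [Ne, ZMod.natCast_eq_zero_iff]
  refine ⟨(-(j : ZMod p) * (P : ZMod p)⁻¹).val, ?_⟩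
  rw [← ZMod.natCast_eq_zero_iff]
  push_cast
  rw [ZMod.natCast_zmod_val]
  field_simp
  ring

theorem VV_pos (z y : ℕ) : 0 < VV (prI z y) := by
  refine prod_pos fun p hp => ?_
  rw [prI, mem_filter] at hp
  have : (2 : ℝ) ≤ p := by exact_mod_cast hp.2.two_le
  have h1 : 1 / (p : ℝ) ≤ 1 / 2 := one_div_le_one_div_of_le (by norm_num) this
  linarith

theorem prod_le (z d : ℕ) (hz : 2 ≤ z) (hd : 0 < d) (hdz : d < z ^ 3) (F : Finset ℕ)
    (hF : ∀ p ∈ F, p.Prime ∧ z < p ∧ p ∣ d) :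
    ∏ p ∈ F, (1 - 1 / (p : ℝ))⁻¹ ≤ ((1 - 1 / (z : ℝ))⁻¹) ^ 2 := by
  have hz2 : (2 : ℝ) ≤ z := by exact_mod_cast hz
  have hz1 : 0 < 1 - 1 / (z : ℝ) := by
    have : 1 / (z : ℝ) ≤ 1 / 2 := one_div_le_one_div_of_le (by norm_num) hz2
    linarith
  have hge : 1 ≤ (1 - 1 / (z : ℝ))⁻¹ := by
    rw [one_le_inv₀ hz1]
    have : 0 ≤ 1 / (z : ℝ) := by positivity
    linarith
  have hcard : #F ≤ 2 := by
    have h1 : ∏ p ∈ F, p ∣ d :=
      Finset.prod_primes_dvd d (fun p hp => (hF p hp).1.prime) (fun p hp => (hF p hp).2.2)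
    have h2 : ∏ p ∈ F, p ≤ d := Nat.le_of_dvd hd h1
    have h3 : z ^ #F ≤ ∏ p ∈ F, p := by
      rw [← Finset.prod_const]
      exact Finset.prod_le_prod' fun p hp => (hF p hp).2.1.le
    have h4 : z ^ #F < z ^ 3 := (h3.trans h2).trans_lt hdz
    have h5 := (Nat.pow_lt_pow_iff_right (by omega : 1 < z)).1 h4
    omega
  calc ∏ p ∈ F, (1 - 1 / (p : ℝ))⁻¹ ≤ ∏ p ∈ F, (1 - 1 / (z : ℝ))⁻¹ := by
        refine Finset.prod_le_prod ?_ ?_
        · intro p hp
          have h1 : (2 : ℝ) ≤ p := by exact_mod_cast (hF p hp).1.two_le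
          have h2 : 1 / (p : ℝ) ≤ 1 / 2 := one_div_le_one_div_of_le (by norm_num) h1
          exact inv_nonneg.2 (by linarith)
        · intro p hp
          have h1 : (z : ℝ) ≤ p := by exact_mod_cast (hF p hp).2.1.le
          have h2 : 1 / (p : ℝ) ≤ 1 / z := one_div_le_one_div_of_le (by linarith) h1
          exact inv_anti₀ hz1 (by linarith)
    _ = ((1 - 1 / (z : ℝ))⁻¹) ^ #F := Finset.prod_const _
    _ ≤ _ := pow_le_pow_right₀ hge hcard

theorem cheb (S : Finset ℕ) (Z : ℕ → ℝ) (mu e η K : ℝ) (hη : 0 < η) (he : 0 < e) (he1 : e ≤ 1)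
    (he2 : 20 * e ≤ η ^ 3) (hmu : 4 ≤ mu * η ^ 3) (hK : (#S : ℝ) = K)
    (h1 : (1 - e) * K * mu ≤ ∑ k ∈ S, Z k)
    (h2 : ∑ k ∈ S, Z k ^ 2 ≤ (1 + e) * K * mu + (1 + e) ^ 2 * K * mu ^ 2) :
    (#(S.filter fun k => η * mu < |Z k - mu|) : ℝ) ≤ η * K := by
  have hη3 : 0 < η ^ 3 := by positivity
  have hmu0 : 0 < mu := by
    by_contra h
    push Not at h
    nlinarith
  have hK0 : 0 ≤ K := by rw [← hK]; positivity
  have h3 : ∑ k ∈ S, (Z k - mu) ^ 2 = ∑ k ∈ S, Z k ^ 2 - 2 * mu * ∑ k ∈ S, Z k + K * mu ^ 2 := by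
    have : ∀ k ∈ S, (Z k - mu) ^ 2 = Z k ^ 2 - 2 * mu * Z k + mu ^ 2 := fun k _ => by ring
    rw [sum_congr rfl this, sum_add_distrib, sum_sub_distrib, ← mul_sum, sum_const, nsmul_eq_mul, hK]
  have h4 : (#(S.filter fun k => η * mu < |Z k - mu|) : ℝ) * (η * mu) ^ 2 ≤
      ∑ k ∈ S, (Z k - mu) ^ 2 := by
    calc (#(S.filter fun k => η * mu < |Z k - mu|) : ℝ) * (η * mu) ^ 2
        = ∑ k ∈ S.filter (fun k => η * mu < |Z k - mu|), (η * mu) ^ 2 := by
          rw [sum_const, nsmul_eq_mul]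
      _ ≤ ∑ k ∈ S.filter (fun k => η * mu < |Z k - mu|), (Z k - mu) ^ 2 := by
          refine sum_le_sum fun k hk => ?_
          have h5 := (mem_filter.1 hk).2
          rw [← sq_abs (Z k - mu)]
          exact pow_le_pow_left₀ (by positivity) h5.le 2
      _ ≤ _ := sum_le_sum_of_subset_of_nonneg (filter_subset _ _) fun k _ _ => sq_nonneg _
  have h5 : ∑ k ∈ S, (Z k - mu) ^ 2 ≤ K * (5 * e * mu ^ 2 + 2 * mu) := by
    rw [h3]
    have h6 : 2 * mu * ((1 - e) * K * mu) ≤ 2 * mu * ∑ k ∈ S, Z k :=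
      mul_le_mul_of_nonneg_left h1 (by positivity)
    have h7 : (1 + e) * K * mu ≤ 2 * (K * mu) := by
      have : 0 ≤ K * mu := by positivity
      nlinarith
    have h8 : e ^ 2 * (K * mu ^ 2) ≤ e * (K * mu ^ 2) := by
      have : 0 ≤ K * mu ^ 2 := by positivity
      have h9 : e ^ 2 ≤ e := by nlinarith
      exact mul_le_mul_of_nonneg_right h9 this
    nlinarith
  have h6 : K * (5 * e * mu ^ 2 + 2 * mu) ≤ (η * K) * (η * mu) ^ 2 := by
    have h7 : 5 * e * mu ^ 2 ≤ η ^ 3 / 4 * mu ^ 2 :=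
      mul_le_mul_of_nonneg_right (by linarith) (by positivity)
    have h8 : 4 * mu ≤ (mu * η ^ 3) * mu := mul_le_mul_of_nonneg_right hmu hmu0.le
    have h9 : 5 * e * mu ^ 2 + 2 * mu ≤ η ^ 3 * mu ^ 2 := by
      have : 0 ≤ η ^ 3 * mu ^ 2 := by positivity
      nlinarith
    calc K * (5 * e * mu ^ 2 + 2 * mu) ≤ K * (η ^ 3 * mu ^ 2) := mul_le_mul_of_nonneg_left h9 hK0
      _ = (η * K) * (η * mu) ^ 2 := by ring
  have h7 : 0 < (η * mu) ^ 2 := by positivity
  exact le_of_mul_le_mul_right ((h4.trans h5).trans h6) h7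

theorem c3 (a3 : St_A3) (c1 : St_C1) (c2 : St_C2) : St_C3 := by
  intro η hη
  set e : ℝ := min (η ^ 3 / 20) 1 with he
  have he0 : 0 < e := lt_min (by positivity) one_pos
  have he1 : e ≤ 1 := min_le_right _ _
  have he2 : 20 * e ≤ η ^ 3 := by
    have := min_le_left (η ^ 3 / 20) 1
    linarith
  obtain ⟨Ca, hCa, Da, ha⟩ := a3 e he0
  obtain ⟨Cb, hCb, Db, hb⟩ := c1 e he0
  obtain ⟨Cc, hCc, Dc, hc⟩ := c2 e he0
  obtain ⟨Dd, hDd⟩ : ∃ Dd : ℕ, ∀ z : ℕ, Dd ≤ z → ((1 - 1 / (z : ℝ))⁻¹) ^ 2 ≤ 1 + e := by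
    have h1 : Tendsto (fun z : ℕ => ((1 - 1 / (z : ℝ))⁻¹) ^ 2) atTop (𝓝 (((1 - 0)⁻¹) ^ 2)) :=
      ((tendsto_const_nhds.sub tendsto_one_div_atTop_nhds_zero_nat).inv₀ (by norm_num)).pow 2
    have h2 : ((1 - 0 : ℝ)⁻¹) ^ 2 < 1 + e := by norm_num; exact he0
    obtain ⟨N, hN⟩ := eventually_atTop.1 (h1.eventually_lt_const h2)
    exact ⟨N, fun z hz => (hN z hz).le⟩
  refine ⟨max Ca (max Cb Cc), lt_max_of_lt_left hCa, max (max Da Db) (max (max Dc Dd) 2), 4 / η ^ 3, ?_⟩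
  intro z y K a T P hz hzy hyK hP hT D hD hM
  have hza : Da ≤ z := by omega
  have hzb : Db ≤ z := by omega
  have hzc : Dc ≤ z := by omega
  have hzd : Dd ≤ z := by omega
  have hz2 : 2 ≤ z := by omega
  have hy1 : (1 : ℝ) ≤ y := by
    have : 1 ≤ y := by omega
    exact_mod_cast this
  have hya : (y : ℝ) ^ Ca ≤ K := (Real.rpow_le_rpow_of_exponent_le hy1 (le_max_left _ _)).trans hyK
  have hyb : (y : ℝ) ^ Cb ≤ K := (Real.rpow_le_rpow_of_exponent_le hy1
    ((le_max_left _ _).trans (le_max_right _ _))).trans hyK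
  have hyc : (y : ℝ) ^ Cc ≤ K := (Real.rpow_le_rpow_of_exponent_le hy1
    ((le_max_right _ _).trans (le_max_right _ _))).trans hyK
  have hV := VV_pos z y
  set V := VV (prI z y) with hVdef
  have hex : ∀ j p : ℕ, ∃ r : ℕ, p.Prime → ¬ p ∣ P → p ∣ r * P + j := by
    intro j p
    by_cases h1 : p.Prime ∧ ¬ p ∣ P
    · obtain ⟨r, hr⟩ := exists_res P p j h1.1 h1.2
      exact ⟨r, fun _ _ => hr⟩
    · exact ⟨0, fun h2 h3 => absurd ⟨h2, h3⟩ h1⟩
  choose c hcr using hex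
  have hprI : ∀ p ∈ prI z y, p.Prime ∧ z < p ∧ ¬ p ∣ P := by
    intro p hp
    rw [prI, mem_filter, mem_Ioc] at hp
    refine ⟨hp.2, hp.1.1, fun hd => ?_⟩
    have := (hP p hp.2).1 hd
    omega
  have hiff : ∀ j k p : ℕ, p ∈ prI z y → (p ∣ k * P + j ↔ k ≡ c j p [MOD p]) := by
    intro j k p hp
    obtain ⟨h1, h2, h3⟩ := hprI p hp
    have h4 := hcr j p h1 h3
    constructor
    · intro h5
      have h6 : k * P + j ≡ c j p * P + j [MOD p] :=
        ((Nat.modEq_zero_iff_dvd).2 h5).trans ((Nat.modEq_zero_iff_dvd).2 h4).symm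
      have h7 : k * P ≡ c j p * P [MOD p] := Nat.ModEq.add_right_cancel' j h6
      exact Nat.ModEq.cancel_right_of_coprime ((Nat.Prime.coprime_iff_not_dvd h1).2 h3) h7
    · intro h5
      have h9 : k * P + j ≡ c j p * P + j [MOD p] := (h5.mul_right P).add_right _
      exact (h9.dvd_iff dvd_rfl).2 h4
  set S := Ico a (a + K) with hS
  have hScard : (#S : ℝ) = K := by
    rw [hS, Nat.card_Ico]
    have : a + K - a = K := by omega
    rw [this]
  classical
  set I : ℕ → ℕ → ℝ := fun j k => if ∀ p ∈ prI z y, ¬ k ≡ c j p [MOD p] then 1 else 0 with hI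
  have hZ : ∀ k, (#(D.filter fun j => ∀ p ∈ prI z y, ¬ p ∣ k * P + j) : ℝ) = ∑ j ∈ D, I j k := by
    intro k
    rw [card_filter]
    push_cast
    refine sum_congr rfl fun j _ => ?_
    have : (∀ p ∈ prI z y, ¬ p ∣ k * P + j) ↔ (∀ p ∈ prI z y, ¬ k ≡ c j p [MOD p]) := by
      constructor
      · intro h p hp h1
        exact h p hp ((hiff j k p hp).2 h1)
      · intro h p hp h1
        exact h p hp ((hiff j k p hp).1 h1)
    simp only [hI]
    by_cases h : ∀ p ∈ prI z y, ¬ k ≡ c j p [MOD p]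
    · rw [if_pos h, if_pos (this.2 h)]
    · rw [if_neg h, if_neg (fun h' => h (this.1 h'))]
  have hsumI : ∀ j, ∑ k ∈ S, I j k = (#(S.filter fun k => ∀ p ∈ prI z y, ¬ k ≡ c j p [MOD p]) : ℝ) := by
    intro j
    rw [card_filter]
    push_cast
    rfl
  have hsumII : ∀ j j', ∑ k ∈ S, I j k * I j' k =
      (#(S.filter fun k => ∀ p ∈ prI z y, ¬ k ≡ c j p [MOD p] ∧ ¬ k ≡ c j' p [MOD p]) : ℝ) := by
    intro j j'
    rw [card_filter]
    push_cast
    refine sum_congr rfl fun k _ => ?_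
    simp only [hI]
    by_cases h1 : ∀ p ∈ prI z y, ¬ k ≡ c j p [MOD p]
    · by_cases h2 : ∀ p ∈ prI z y, ¬ k ≡ c j' p [MOD p]
      · have h3 : ∀ p ∈ prI z y, ¬ k ≡ c j p [MOD p] ∧ ¬ k ≡ c j' p [MOD p] :=
          fun p hp => ⟨h1 p hp, h2 p hp⟩
        rw [if_pos h1, if_pos h2, if_pos h3, one_mul]
      · have h3 : ¬ ∀ p ∈ prI z y, ¬ k ≡ c j p [MOD p] ∧ ¬ k ≡ c j' p [MOD p] :=
          fun h => h2 fun p hp => (h p hp).2
        rw [if_neg h2, if_neg h3, mul_zero]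
    · have h3 : ¬ ∀ p ∈ prI z y, ¬ k ≡ c j p [MOD p] ∧ ¬ k ≡ c j' p [MOD p] :=
        fun h => h1 fun p hp => (h p hp).1
      rw [if_neg h1, if_neg h3, zero_mul]
  have hmain : (#(S.filter fun k => η * (#D * V) <
      |(∑ j ∈ D, I j k) - #D * V|) : ℝ) ≤ η * K := by
    refine cheb S (fun k => ∑ j ∈ D, I j k) (#D * V) e η K hη he0 he1 he2 ?_ hScard ?_ ?_
    · rw [div_le_iff₀ (by positivity)] at hM
      exact hM
    · rw [sum_comm]
      calc (1 - e) * K * (#D * V) = ∑ j ∈ D, (1 - e) * K * V := by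
            rw [sum_const, nsmul_eq_mul]; ring
        _ ≤ _ := by
            refine sum_le_sum fun j _ => ?_
            rw [hsumI]
            exact hc z y K a hzc hzy hyc (c j)
    · have h1 : ∑ k ∈ S, (∑ j ∈ D, I j k) ^ 2 = ∑ j ∈ D, ∑ j' ∈ D, ∑ k ∈ S, I j k * I j' k := by
        have h2 : ∀ k ∈ S, (∑ j ∈ D, I j k) ^ 2 = ∑ j ∈ D, ∑ j' ∈ D, I j k * I j' k := by
          intro k _
          rw [sq, sum_mul_sum]
        rw [sum_congr rfl h2, sum_comm]
        refine sum_congr rfl fun j _ => ?_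
        rw [sum_comm]
      show ∑ k ∈ S, (∑ j ∈ D, I j k) ^ 2 ≤ _
      rw [h1]
      have h2 : ∀ j ∈ D, ∀ j' ∈ D, ∑ k ∈ S, I j k * I j' k ≤
          (if j = j' then (1 + e) * K * V else 0) + (1 + e) ^ 2 * K * V ^ 2 := by
        intro j hj j' hj'
        by_cases hjj : j = j'
        · subst hjj
          rw [if_pos rfl, hsumII]
          have h3 := ha z y K a hza hzy hya (c j)
          have h4 : (S.filter fun k => ∀ p ∈ prI z y, ¬ k ≡ c j p [MOD p] ∧ ¬ k ≡ c j p [MOD p]) =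
              S.filter fun k => ∀ p ∈ prI z y, ¬ k ≡ c j p [MOD p] := by
            refine filter_congr fun k _ => ?_
            constructor
            · intro h p hp; exact (h p hp).1
            · intro h p hp; exact ⟨h p hp, h p hp⟩
          rw [h4]
          have h5 : 0 ≤ (1 + e) ^ 2 * K * V ^ 2 := by positivity
          linarith
        · rw [if_neg hjj, hsumII, zero_add]
          have h3 := hb z y K a hzb hzy hyb (c j) (c j')
          refine h3.trans ?_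
          have hjT := mem_Icc.1 (hD hj)
          have hjT' := mem_Icc.1 (hD hj')
          have h4 : ∏ p ∈ (prI z y).filter (fun p => c j p ≡ c j' p [MOD p]), (1 - 1 / (p : ℝ))⁻¹ ≤
              1 + e := by
            refine (prod_le z ((j - j') + (j' - j)) hz2 (by omega) (by omega) _ ?_).trans (hDd z hzd)
            intro p hp
            rw [mem_filter] at hp
            obtain ⟨h5, h6, h7⟩ := hprI p hp.1
            refine ⟨h5, h6, ?_⟩
            have h8 := hcr j p h5 h7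
            have h9 : p ∣ c j p * P + j' := (hiff j' (c j p) p hp.1).2 hp.2
            have h10 : p ∣ j - j' := by
              have := Nat.dvd_sub h8 h9
              rwa [Nat.add_sub_add_left] at this
            have h11 : p ∣ j' - j := by
              have := Nat.dvd_sub h9 h8
              rwa [Nat.add_sub_add_left] at this
            exact dvd_add h10 h11
          calc (1 + e) * K * VV (prI z y) ^ 2 *
                ∏ p ∈ (prI z y).filter (fun p => c j p ≡ c j' p [MOD p]), (1 - 1 / (p : ℝ))⁻¹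
              ≤ (1 + e) * K * VV (prI z y) ^ 2 * (1 + e) :=
                mul_le_mul_of_nonneg_left h4 (by positivity)
            _ = (1 + e) ^ 2 * K * V ^ 2 := by rw [hVdef]; ring
      calc ∑ j ∈ D, ∑ j' ∈ D, ∑ k ∈ S, I j k * I j' k
          ≤ ∑ j ∈ D, ∑ j' ∈ D, ((if j = j' then (1 + e) * K * V else 0) + (1 + e) ^ 2 * K * V ^ 2) :=
            sum_le_sum fun j hj => sum_le_sum fun j' hj' => h2 j hj j' hj'
        _ = ∑ j ∈ D, ((1 + e) * K * V + #D * ((1 + e) ^ 2 * K * V ^ 2)) := by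
            refine sum_congr rfl fun j hj => ?_
            rw [sum_add_distrib, sum_ite_eq, if_pos hj, sum_const, nsmul_eq_mul]
        _ = (1 + e) * K * (#D * V) + (1 + e) ^ 2 * K * (#D * V) ^ 2 := by
            rw [sum_const, nsmul_eq_mul]
            ring
  refine le_trans (le_of_eq ?_) hmain
  congr 2
  refine filter_congr fun k _ => ?_
  rw [hZ k]

end Pool.Agent.L5helper82.LG
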